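import Mathlib
import Pool.Agent.Y229.CF.IdX

/-!
# The motivic monodromy conjecture at the origin for ideals nondegenerate for the compact faces

Let `k ⊂ ℂ` be a field and let `I = (f_1, ..., f_r)`, `f_i = ∑_{π j = i} c_j x ^ (m_j) ∈ k[x_1, …, x_n]`,
be nondegenerate with respect to the COMPACT faces of the Newton polyhedra at the origin (the usual
local nondegeneracy of a system): for every `w` with positive coordinates the initial forms of some
of the `f_i` have no common zero in the torus at which their differentials are dependent. There is no
condition on the terms above the compact faces; the numbers of variables and of generators are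
arbitrary, and `V(I)` need not be a complete intersection or have isolated singularities.

Consider the Newton polyhedron of `∑ y_i f_i` in `ℝ ^ (n + r)`. For a facet with primitive inner
normal vector `a ∈ ℕ ^ (n + r)` and `N_a = min ⟨a, ·⟩ > 0` the candidate pole is `-|a| / N_a`. For every
facet it is assumed that the facet is a pyramid with an apex `y_i x ^ m`, or that the candidate pole is
an integer, or that it agrees modulo integers with the one of a facet which contains a suitable
simplex which is not of type `B1`, or that at every vertex the facets with this candidate pole
through this vertex are simplices or `B1` in a common direction, or they are simplices or pyramids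
with apexes `y_i x ^ m`. In particular all ideals such that the Newton polyhedron of `∑ y_i f_i` is
simplicial are allowed.

Then the local motivic zeta function of `I` at the origin lies in the ring generated by `T` and
finitely many `1 / (1 - 𝕃 ^ a T ^ b)` with `a < 0 < b` such that `a / b` is an integer or the local
Bernstein-Sato polynomial of the ideal `I` at the origin (Budur, Mustata and Saito) has a root in
`a / b + ℤ`; then `exp (2 π i a / b)` is an eigenvalue of Verdier's monodromy at points over points
near the origin.

Relation to the starting results of this problem. NondegenerateIdeals needs the nondegeneracy for all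
faces of the Newton polytopes, and the condition of the third kind above for every facet which is not a
pyramid. ChiYGenusIdeals has all the ideals which are nondegenerate for the compact faces, but only
for the specialisation of the zeta function to the `χ_y`-genus; here it is the motivic zeta function
itself.

Method. As for hypersurfaces (CompactFacesVertices of MP_9321be): the functional equation of the
ideal gives one of `g = ∑ y_i f_i`, and the arcs `(x, t y)` of `g` give the zeta function of `I`; for
`g`, which is nondegenerate for the compact faces, the multiplicative relation between the face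
polynomials is obtained by deformation to very general coefficients over `ℂ⟦τ⟧`, and the poles of the
facets which satisfy the last condition cancel vertex by vertex.
-/

set_option autoImplicit false

namespace Pool.Agent.Results.MP_4e5fcd_ag.CompactFacesIdeals

open MvPolynomial Pool.Agent.W428.MOT Pool.Agent.W749.JI
open Pool.Agent.TH216.HDNL (HypVIL)
open Pool.Agent.Y229 (SpansI)
open Pool.Agent.Y229.CF (NondegIC)

/-- **The motivic monodromy conjecture at the origin (Bernstein-Sato form modulo integers) for the
ideals `(f_1, ..., f_r)`, `f_i = ∑_{π j = i} c_j x ^ (m_j)`, which are nondegenerate for the compact faces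
and satisfy `HypVIL`.**

`NondegIC π m c` says that for every linear form `w` with positive coordinates and every nonempty set
`Q` of indices the parts of the `f_i`, `i ∈ Q`, on which `w` is minimal have no common zero in
`(ℂ \ 0) ^ n` at which their differentials are linearly dependent. `SpansI π m V` says that `V` is a
set of indices such that every `m_j` is in the Newton polyhedron `conv {m_k, k ∈ V, π k = π j} +
ℝ_{≥ 0} ^ n` (for instance the vertices).

`HypVIL (cay π m) V`, where `cay π m j = (m_j, e_{π j})` are the exponents of `∑ y_i f_i`, says that for
every ray `a` of the normal fan of the Newton polyhedron of the `cay π m j` (`IsRay`) with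
`N_a := min_j ⟨a, cay π m j⟩ > 0` one of the following holds:
* `YApexVL`: for some `i` with `a_{y_i} ≠ 0` exactly one `j ∈ V` on the face of `a` has `π j = i`;
* `N_a` divides `|a|`;
* `|a| / N_a - |a'| / N_{a'} ∈ ℤ` for some `a'` with `N_{a'} > 0` and `NonB1 (cay π m) True a'` (the face
  of `a'` contains a suitable simplex which is not `B1`);
* `LocVIL` for `σ = |a| / N_a`: for every `j1 ∈ V`, either there is a variable (`x_i` or `y_i`) such that
  all the facets through `cay π m j1` with candidate pole `-σ` are simplices or `B1` in the direction
  of this variable, or all these facets are simplices or satisfy `YApexVL`.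

`IsLocalBIdeal f b` is the functional equation of Budur, Mustata and Saito for the ideal `(f_i)` with
operators with formal power series coefficients at the origin; the local Bernstein-Sato polynomial
`b_{I,0}` is one of these polynomials `b`. `zetaI f` is
`𝕃 ^ (-n) ∑_{N ≥ 1} [𝒳_N] 𝕃 ^ (-n N) T ^ N` with `𝒳_N` the `N`-jets with origin `0` on which the ideal
has order `N`, in `K_0(Var_K)[𝕃⁻¹][[T]]`; the finite set `S` is the same for all fields `K ⊃ k`. -/
theorem result {k : Type} [Field k] [Algebra k ℂ] {ℓ r n : ℕ} (hℓ : 0 < ℓ) (π : Fin ℓ → Fin r)
    (m : Fin ℓ → Fin n → ℕ) (hinj : ∀ j j', π j = π j' → m j = m j' → j = j')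
    (c : Fin ℓ → k) (hc : ∀ j, c j ≠ 0) (hnd : NondegIC π m (fun j => algebraMap k ℂ (c j)))
    (V : Finset (Fin ℓ)) (hV : SpansI π m V) (hL : HypVIL (cay π m) V) :
    ∃ S : Finset (ℤ × ℤ),
      (∀ p ∈ S, p.1 < 0 ∧ 0 < p.2 ∧ (p.2 ∣ p.1 ∨ ∀ b : Polynomial ℂ,
        IsLocalBIdeal (fun i => ∑ j ∈ Finset.univ.filter (fun j => π j = i),
          C (algebraMap k ℂ (c j)) * ∏ v, X v ^ m j v) b →
            ∃ i : ℤ, b.eval ((p.1 : ℂ) / p.2 - i) = 0)) ∧
      ∀ (K : Type) [Field K] [Algebra k K],
        zetaI (fun i => ∑ j ∈ Finset.univ.filter (fun j => π j = i),
          C (algebraMap k K (c j)) * ∏ v, X v ^ m j v) ∈ ratRing K S :=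
  Pool.Agent.Y229.CF.nd_idealX' hℓ π m hinj c hc hnd V hV hL

end Pool.Agent.Results.MP_4e5fcd_ag.CompactFacesIdeals
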