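import Mathlib
import Pool.Agent.TH216.ID.Gn3

/-!
# The motivic monodromy conjecture at the origin for ideals with generic coefficients, strong form

Let `I = (f_1, ..., f_r)`, `f_i = ∑_{π j = i} c_j x ^ (m_j) + h_i`, where the `h_i` are ARBITRARY
polynomials over a subfield `F` of `ℂ` (`F = ℂ` is allowed) with exponents in the Newton polyhedra
`conv {m_j, π j = i} + ℝ_{≥ 0} ^ n`, and the coefficients `c_j` are generic: `g(c) ≠ 0` for a certain
nonzero polynomial `g` with coefficients in `F`. The numbers of variables and generators are
arbitrary; `V(I)` need not be a complete intersection.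

Consider the Newton polyhedron of `∑ y_i f_i` in `ℝ ^ (n + r)`. For a facet with primitive inner
normal vector `a ∈ ℕ ^ (n + r)` and `N_a = min ⟨a, ·⟩ > 0` the candidate pole is `-|a| / N_a`. For every
facet it is assumed that it is a pyramid with an apex `y_i x ^ m`, or that its candidate pole is the
candidate pole of a facet which contains a suitable simplex which is not of type `B1`, or that at
every vertex the facets with this candidate pole through this vertex are simplices or `B1` in a
common direction, or they are simplices or pyramids with apexes `y_i x ^ m` (`HypI`). For example this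
holds if every facet is a simplex (linearly independent vertices, and the exponents of `∑ y_i h_i` on the
facet are in their convex hull).

Then the local motivic zeta function of `I` at the origin lies in the ring generated by `T` and
finitely many `1 / (1 - 𝕃 ^ a T ^ b)` with `a < 0 < b` and `a / b` a ROOT of the local Bernstein-Sato
polynomial of the ideal `I` at the origin (Budur, Mustata and Saito), not only modulo integers. So for
every pole `𝕃 ^ (-s₀)`, `s₀` is a root of `b_{I,0}`, and then `exp (2 π i s₀)` is an eigenvalue of
Verdier's monodromy at points over points near the origin.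

Relation to the starting results of this problem. LinearlyIndependentExponents has the strong form for
the ideals with linearly independent vectors `(m_j, e_{π j})` (and no `h_i`); NondegenerateIdeals and
ChiYGenusIdeals have the form modulo integers. GenericCoefficientIdeals of MP_ee8c61 is about the
global topological zeta function.

Method. The functional equation gives, for algebraically independent `c_j`, an identity in a
polynomial ring with one variable for every `(m_j, e_{π j})`, which is turned into a multiplicative
identity for the universal series of the faces of the Newton polyhedron of `∑ y_i f_i`; the classes of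
the zero sets of the face polynomials in the tori satisfy linear relations for the `B1`-facets. The
jets of `(x, y)` on which `∑ y_i f_i` has order `N`, with `x(0) = 0`, are affine bundles over the jets
on which `I` has order at most `N`.
-/

set_option autoImplicit false

namespace Pool.Agent.Results.MP_4e5fcd_ag.GenericCoefficientIdeals

open MvPolynomial Pool.Agent.W428.MOT Pool.Agent.W749.JI
open Pool.Agent.TH216.HDI (InPolyI HypI ysum)

/-- **The motivic monodromy conjecture at the origin (strong Bernstein-Sato form) for the ideals
`(f_1, ..., f_r)`, `f_i = ∑_{π j = i} c_j x ^ (m_j) + h_i`, with generic coefficients `c_j`.**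

`InPolyI π m h` says that the exponents of `h_i` are in `conv {m_j, π j = i} + ℝ_{≥ 0} ^ n`.
`cay π m j = (m_j, e_{π j})` are the exponents of `∑_i y_i ∑_{π j = i} c_j x ^ (m_j)`, and
`ysum h = ∑_i y_i h_i`.

`HypI (cay π m) (ysum h)` says that for every ray `a` of the normal fan of the Newton polyhedron of
the `cay π m j` (`IsRay`) with `N_a := min_j ⟨a, cay π m j⟩ > 0` one of the following holds:
* `YApex`: for some `i` exactly one of the monomials `y_i x ^ m` of the face of `a` is divisible by
  `y_i` (the facet is a pyramid with apex `y_i x ^ m`);
* `|a| / N_a = |a'| / N_{a'}` for some `a'` with `N_{a'} > 0` and `NonB1 (cay π m) True a'`: the face of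
  `a'` contains a suitable simplex which is not `B1`;
* `LocI` for `σ = |a| / N_a`: for every `j1`, either there is a variable (`x_i` or `y_i`) such that all
  the facets through `cay π m j1` with candidate pole `-σ` are simplices or `B1` in the direction of
  this variable, or all these facets are simplices or satisfy `YApex`.

`IsLocalBIdeal f b` is the functional equation of Budur, Mustata and Saito for the ideal `(f_i)` with
operators with formal power series coefficients at the origin; the local Bernstein-Sato polynomial
`b_{I,0}` is one of these polynomials `b`. `zetaI f` is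
`𝕃 ^ (-n) ∑_{N ≥ 1} [𝒳_N] 𝕃 ^ (-n N) T ^ N` with `𝒳_N` the `N`-jets with origin `0` on which the ideal
has order `N`, in `K_0(Var_K)[𝕃⁻¹][[T]]`. The coefficients `c_j` are in a field `k` with
`F ⊂ k ⊂ ℂ`, and the finite set `S` is the same for all fields `K ⊃ k`. -/
theorem result {F : Type} [Field F] [Algebra F ℂ] {ℓ r n : ℕ} (hℓ : 0 < ℓ) (π : Fin ℓ → Fin r)
    (m : Fin ℓ → Fin n → ℕ) (hinj : ∀ j j', π j = π j' → m j = m j' → j = j')
    (h : Fin r → MvPolynomial (Fin n) F) (hh : InPolyI π m h) (hL : HypI (cay π m) (ysum h)) :
    ∃ g : MvPolynomial (Fin ℓ) F, g ≠ 0 ∧ ∀ (k : Type) [Field k] [Algebra F k] [Algebra k ℂ]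
      [IsScalarTower F k ℂ] (c : Fin ℓ → k), aeval c g ≠ 0 →
      ∃ S : Finset (ℤ × ℤ),
        (∀ p ∈ S, p.1 < 0 ∧ 0 < p.2 ∧ ∀ b : Polynomial ℂ,
          IsLocalBIdeal (fun i => ∑ j ∈ Finset.univ.filter (fun j => π j = i),
            C (algebraMap k ℂ (c j)) * ∏ x, X x ^ m j x +
              MvPolynomial.map (algebraMap F ℂ) (h i)) b → b.eval ((p.1 : ℂ) / p.2) = 0) ∧
        ∀ (K : Type) [Field K] [Algebra k K],
          zetaI (fun i => MvPolynomial.map (algebraMap k K)
            (∑ j ∈ Finset.univ.filter (fun j => π j = i), C (c j) * ∏ x, X x ^ m j x +
              MvPolynomial.map (algebraMap F k) (h i))) ∈ ratRing K S :=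
  Pool.Agent.TH216.ID.ideal_gen hℓ π m hinj h hh hL

end Pool.Agent.Results.MP_4e5fcd_ag.GenericCoefficientIdeals
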