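import Pool.Agent.Q282.DL.Weak

set_option autoImplicit false

/-! # The motivic monodromy conjecture for products of powers of ideals with Rees divisors

Let `g t j ∈ ℂ[x_i]`, `t ∈ T`, be generators of ideals `I_t` (no condition on the dimension, on the
number of the ideals or on their zero sets), and let `I = ∏ t, I_t ^ a t`. Let `Y` be a
principalization of `I`, with the components `E_i`, `i ∈ I`, let `k i = ν_i - 1` be the multiplicity of
`E_i` in the relative canonical divisor and `m i t` the order of `I_t` along `E_i`, so that
`N_i = ∑ t, a t * m i t`. By the formula of Denef and Loeser the motivic zeta function of `I` at the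
origin is `∑_J c_J ∏_{i ∈ J} 𝕃 ^ (-ν_i) T ^ (N_i) / (1 - 𝕃 ^ (-ν_i) T ^ (N_i))` (`dlZ`), where `c_J` is
`𝕃 ^ (-n-1) (𝕃 - 1) ^ |J|` times the class of the part of the stratum `J` over the origin. The ring `R`
below is a commutative ring with a unit `u`, for example `R = 𝓜_ℂ` with `u = 𝕃`.

The theorem: if the numbers `-ν_i / N_i` of the `E_i` which occur are congruent modulo `ℤ` to numbers of
Rees divisors of `I` (those divisors which are not contracted by the map to the blow-up of `I`) then
they are congruent modulo `ℤ` to roots of the local Bernstein-Sato polynomial of `I` at the origin. By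
the theorem of Budur, Mustata and Saito the exponentials of its roots are the eigenvalues of the
monodromy of Verdier's specialization complex (at points over a neighbourhood of the origin), and
every eigenvalue of a complex of this kind is a zero or a pole of the monodromy zeta function at some
point. The `E_i` themselves need not be Rees divisors: it is enough that
`ν_i / N_i - (k_E + 1 + l) / N_E ∈ ℤ` for a Rees divisor `E`, with `l < N_E` the order of a polynomial along
`E` (for instance `l = 0`).

The proof: a Rees divisor of the product of the ideals gives roots, by a residue computation at a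
general point of `E` (`rees_prod`, `root_of_from`). -/

namespace Pool.Agent.Results.MP_4e5fcd_ag.ReesIdeals

open Pool.Agent.W574.SM Pool.Agent.W574.LM Pool.Agent.TH192.DT Pool.Agent.Y231.RF
  Pool.Agent.Y228.RR Pool.Agent.Q282.DL

/-- **The motivic monodromy conjecture for products of powers of ideals, in terms of Rees divisors
modulo `ℤ`.** Let `Z = dlZ u (k + 1) (∑ t, a t * m · t) c` be a series which
is given by the formula of Denef and Loeser on a principalization of `I = ∏ t, I_t ^ a t`, with
arbitrary coefficients `c J` in a commutative ring `R` with a unit `u` (`𝓜_ℂ` and `𝕃`). Suppose that, for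
the components `E_i` with `N_i > 0` which occur (`Occ`: they are in a set `J` with `c J ≠ 0`, that is,
in a stratum which meets the fibre over the origin), the number `-ν_i / N_i` is, for every `H` with
`H(0) ≠ 0`, congruent modulo `ℤ` to the number of a Rees divisor over points with `H ≠ 0`
(`FromReesModI`). Then there is a finite set `P` of pairs
`(b1, b2)`, `b1 < 0 < b2`, such that `Z` lies in the ring generated over `R` by `T` and the
`1 / (1 - u ^ b1 T ^ b2)`, `(b1, b2) ∈ P`, and such that some `b1 / b2 - i`, `i ∈ ℤ`, is a root
(`RootModZ`) of every `b` for which `H b` satisfies a functional equation of the generators of `I`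
(`IsLocEq`) for some polynomial `H` with `H(0) ≠ 0`, in particular of the local Bernstein-Sato
polynomial of `I` at the origin, and (`H = 1`) of the global one.

`FromRees g a H ν N` says that `ν / N = (k_E + 1 + l) / N_E` for a Rees divisor `E` of the product of the
ideals `I_t` with `a t ≠ 0` and a general point of `E` over a point of the affine space at which `H`
does not vanish, where `k_E` is the multiplicity of `E` in the relative canonical divisor, `N_E` is
the order of `∏ t, I_t ^ a t` along `E`, and `l < N_E` is the order along `E` of some polynomial (for
instance `1`, with `l = 0`); for a component `E_i` which meets the fibre over the origin and which is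
itself a Rees divisor this is so for every `H` with `H(0) ≠ 0`, with `E = E_i` and `l = 0`.

`Chart g` is a formal chart of the principalization at a point `p` of a prime divisor `E` over the
affine space: power series `ξ i` (the coordinates `x i` of the affine space), in formal coordinates at
`p` one of which, `z`, is the equation of `E`, whose Jacobian determinant is `z ^ k` times a unit, and
for which each `I_t` becomes `(z ^ m t)`. `E.IsRees A` says that the map from `E` to the product of
the affine space and of the projective spaces of the generators of the `I_t`, `t ∈ A`, is unramified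
at `p`: some functions which together with `z` are formal coordinates at `p` are pull-backs of
polynomials or of quotients `(∑ j, c_j g s j) / g s (j0 s)`, `s ∈ A`. This is so at the general points
of a divisor `E` if and only if `E` is a Rees divisor of the product of the `I_t`, `t ∈ A`. -/
theorem result {σ T I : Type} [Fintype σ] [DecidableEq σ] [Fintype T] [DecidableEq T] [Fintype I]
    {κ : T → Type} [∀ t, Fintype (κ t)] [∀ t, DecidableEq (κ t)]
    (g : (t : T) → κ t → MvPolynomial σ ℂ) (a : T → ℕ)
    (k : I → ℕ) (m : I → T → ℕ) {R : Type} [CommRing R] (u : Rˣ)
    (c : Finset {i // 0 < ∑ t, a t * m i t} → R)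
    (hE : ∀ (i : I) (hi : 0 < ∑ t, a t * m i t), Occ (N := fun i => ∑ t, a t * m i t) c ⟨i, hi⟩ →
      ∀ H : MvPolynomial σ ℂ, MvPolynomial.constantCoeff H ≠ 0 →
        FromReesModI g a H (k i + 1) (∑ t, a t * m i t)) :
    ∃ P : Finset (ℤ × ℤ), (∀ q ∈ P, q.1 < 0 ∧ 0 < q.2 ∧
      ∀ (b : Polynomial ℂ) (H : MvPolynomial σ ℂ), MvPolynomial.constantCoeff H ≠ 0 →
        IsLocEq H (prodFam fun q : Σ t, Fin (a t) => g q.1) b →
          RootModZ b ((q.1 : ℂ) / q.2)) ∧
      dlZ u (fun i => k i + 1) (fun i => ∑ t, a t * m i t) c ∈ ratU u (P : Set (ℤ × ℤ)) :=
  ideal_weak g a k m u c hE

end Pool.Agent.Results.MP_4e5fcd_ag.ReesIdeals
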